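import Pool.Agent.W488.IW.Stm

/-! Project IW: the homogeneous functional (part QP). -/

set_option autoImplicit false

namespace Pool.Agent.W737.IW.Qp

open Pool.Agent.W488.IW
open MeasureTheory Set Filter Topology

lemma tp_cont (Λ : Finset Idx) (w c : Idx → ℂ) : Continuous (tp Λ w c) := by
  unfold tp ek
  fun_prop

/-- bound for the kernel -/
lemma Ks_bound {R s x y : ℝ} (hs : 0 < s) (hx : 0 ≤ x) (hxR : x ≤ R) (hy : 0 ≤ y) (hyR : y ≤ R) :
    |Ks s x y| ≤ (8 * R ^ 2) * (Set.indicator (Ioc 0 (2 * R)) (fun t : ℝ => t⁻¹) s) := by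
  by_cases h : s ≤ 2 * R
  · rw [Set.indicator_of_mem (show s ∈ Ioc 0 (2 * R) from ⟨hs, h⟩)]
    have hR : 0 < R := by linarith
    have h1 : 0 ≤ max (x + y - s) 0 := le_max_right _ _
    have h2 : max (x + y - s) 0 ≤ 2 * R := max_le (by linarith) (by linarith)
    have h3 : 0 ≤ max (x - y - s) 0 := le_max_right _ _
    have h4 : max (x - y - s) 0 ≤ R := max_le (by linarith) (by linarith)
    unfold Ks
    set u := max (x + y - s) 0
    set v := max (x - y - s) 0
    have e : (x * u - u ^ 2 / 2) / s + v = (x * u - u ^ 2 / 2 + v * s) * s⁻¹ := by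
      field_simp
    rw [e, abs_mul, abs_of_pos (inv_pos.mpr hs)]
    refine mul_le_mul_of_nonneg_right ?_ (inv_pos.mpr hs).le
    have a1 : x * u ≤ R * (2 * R) := mul_le_mul hxR h2 h1 hR.le
    have a2 : 0 ≤ x * u := mul_nonneg hx h1
    have a3 : u ^ 2 ≤ (2 * R) ^ 2 := pow_le_pow_left₀ h1 h2 2
    have a4 : 0 ≤ u ^ 2 := sq_nonneg u
    have a5 : v * s ≤ R * (2 * R) := mul_le_mul h4 h hs.le hR.le
    have a6 : 0 ≤ v * s := mul_nonneg h3 hs.le
    rw [abs_le]
    constructor <;> nlinarith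
  · rw [Set.indicator_of_notMem (fun hh => h hh.2)]
    have h' : 2 * R < s := not_le.mp h
    unfold Ks
    rw [max_eq_right (by linarith : x + y - s ≤ 0), max_eq_right (by linarith : x - y - s ≤ 0)]
    simp

theorem main (h : S_QK) (hW : S_WK) : S_QP := by
  intro p hp N c
  set μ : Measure V := volume.restrict (Icc (0 : V) 1) with hμ
  set ν : Measure ℝ := volume.restrict (Ioi (0 : ℝ)) with hν
  have hga : Continuous fun x : V => ‖(gd (box N) c x).1‖ := (tp_cont _ _ _).norm
  have hgb : Continuous fun x : V => ‖(gd (box N) c x).2‖ := (tp_cont _ _ _).norm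
  -- a common bound
  obtain ⟨R, hR⟩ : ∃ R : ℝ, ∀ x ∈ Icc (0 : V) 1, ‖(gd (box N) c x).1‖ ≤ R ∧
      ‖(gd (box N) c x).2‖ ≤ R := by
    obtain ⟨R1, h1⟩ := (isCompact_Icc (a := (0 : V)) (b := 1)).bddAbove_image hga.continuousOn
    obtain ⟨R2, h2⟩ := (isCompact_Icc (a := (0 : V)) (b := 1)).bddAbove_image hgb.continuousOn
    refine ⟨max R1 R2, fun x hx => ⟨?_, ?_⟩⟩
    · exact le_trans (h1 (mem_image_of_mem _ hx)) (le_max_left _ _)
    · exact le_trans (h2 (mem_image_of_mem _ hx)) (le_max_right _ _)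
  set G : ℝ × V → ℝ := fun z => z.1 ^ (p - 2) *
    Ks z.1 ‖(gd (box N) c z.2).1‖ ‖(gd (box N) c z.2).2‖ with hG
  have hfin : IsFiniteMeasure μ := by
    rw [hμ]
    refine ⟨?_⟩
    rw [Measure.restrict_apply_univ]
    exact (isCompact_Icc (a := (0 : V)) (b := 1)).measure_lt_top
  -- measurability
  have hmeas : AEStronglyMeasurable G (ν.prod μ) := by
    rw [hν, hμ, Measure.prod_restrict]
    refine ContinuousOn.aestronglyMeasurable ?_ (measurableSet_Ioi.prod measurableSet_Icc)
    have c1 : ContinuousOn (fun z : ℝ × V => z.1 ^ (p - 2)) (Ioi (0 : ℝ) ×ˢ Icc (0 : V) 1) := by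
      refine ContinuousOn.rpow_const continuousOn_fst ?_
      intro z hz
      left
      exact ne_of_gt hz.1
    have c2 : Continuous fun z : ℝ × V => ‖(gd (box N) c z.2).1‖ := hga.comp continuous_snd
    have c3 : Continuous fun z : ℝ × V => ‖(gd (box N) c z.2).2‖ := hgb.comp continuous_snd
    have c4 : ContinuousOn (fun z : ℝ × V =>
        Ks z.1 ‖(gd (box N) c z.2).1‖ ‖(gd (box N) c z.2).2‖) (Ioi (0 : ℝ) ×ˢ Icc (0 : V) 1) := by
      unfold Ks
      refine ContinuousOn.add (ContinuousOn.div ?_ continuousOn_fst ?_) ?_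
      · exact Continuous.continuousOn (by fun_prop)
      · intro z hz
        exact ne_of_gt hz.1
      · exact Continuous.continuousOn (by fun_prop)
    exact c1.mul c4
  -- integrable majorant
  have hmaj : Integrable (fun z : ℝ × V => ((8 * R ^ 2) *
      (Set.indicator (Ioc 0 (2 * R)) (fun t : ℝ => t ^ (p - 3)) z.1)) * (1 : ℝ)) (ν.prod μ) := by
    refine Integrable.mul_prod (f := fun s : ℝ => (8 * R ^ 2) *
      (Set.indicator (Ioc 0 (2 * R)) (fun t : ℝ => t ^ (p - 3)) s)) (g := fun _ : V => (1 : ℝ))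
      ?_ (integrable_const _)
    refine Integrable.const_mul ?_ _
    rw [integrable_indicator_iff measurableSet_Ioc, IntegrableOn, hν,
      Measure.restrict_restrict measurableSet_Ioc]
    have e : Ioc (0 : ℝ) (2 * R) ∩ Ioi 0 = Ioc (0 : ℝ) (2 * R) := by
      ext t
      simp only [mem_inter_iff, mem_Ioc, mem_Ioi]
      tauto
    rw [e]
    rcases le_or_gt 0 (2 * R) with h0 | h0
    · have := (intervalIntegral.intervalIntegrable_rpow' (a := 0) (b := 2 * R)
        (show -1 < p - 3 by linarith))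
      exact (intervalIntegrable_iff_integrableOn_Ioc_of_le h0).mp this
    · rw [Ioc_eq_empty (by linarith)]
      simp
  have hint : Integrable G (ν.prod μ) := by
    refine hmaj.mono' hmeas ?_
    rw [hν, hμ, Measure.prod_restrict]
    refine (ae_restrict_mem (measurableSet_Ioi.prod measurableSet_Icc)).mono ?_
    rintro ⟨s, x⟩ ⟨hs, hx⟩
    have hs' : 0 < s := hs
    obtain ⟨hx1, hx2⟩ := hR x hx
    have hb := Ks_bound hs' (norm_nonneg _) hx1 (norm_nonneg _) hx2
    simp only [hG, mul_one, norm_mul, Real.norm_eq_abs]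
    rw [abs_of_nonneg (Real.rpow_nonneg hs'.le _)]
    refine (mul_le_mul_of_nonneg_left hb (Real.rpow_nonneg hs'.le _)).trans ?_
    by_cases hsm : s ∈ Ioc 0 (2 * R)
    · rw [Set.indicator_of_mem hsm, Set.indicator_of_mem hsm]
      have : s ^ (p - 3) = s ^ (p - 2) * s⁻¹ := by
        rw [← Real.rpow_neg_one, ← Real.rpow_add hs']
        congr 1
        ring
      rw [this]
      exact le_of_eq (by ring)
    · rw [Set.indicator_of_notMem hsm, Set.indicator_of_notMem hsm]
      simp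
  -- Fubini
  have key : ∫ x, Wp p ‖(gd (box N) c x).1‖ ‖(gd (box N) c x).2‖ ∂μ
      = p * (p - 1) * (p - 2) * ∫ s, (s ^ (p - 2) *
          ∫ x, Ks s ‖(gd (box N) c x).1‖ ‖(gd (box N) c x).2‖ ∂μ) ∂ν := by
    have e1 : ∫ x, Wp p ‖(gd (box N) c x).1‖ ‖(gd (box N) c x).2‖ ∂μ
        = ∫ x, (p * (p - 1) * (p - 2) * ∫ s, G (s, x) ∂ν) ∂μ := by
      refine integral_congr_ae (Eventually.of_forall fun x => ?_)
      exact (hW p _ _ hp (norm_nonneg _) (norm_nonneg _)).2
    rw [e1, integral_const_mul]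
    congr 1
    rw [← integral_integral_swap (f := fun s x => G (s, x)) hint]
    refine integral_congr_ae (Eventually.of_forall fun s => ?_)
    simp only [hG]
    rw [integral_const_mul]
  change 0 ≤ ∫ x, Wp p ‖(gd (box N) c x).1‖ ‖(gd (box N) c x).2‖ ∂μ
  rw [key]
  refine mul_nonneg (mul_nonneg (mul_nonneg (by linarith) (by linarith)) (by linarith)) ?_
  rw [hν]
  refine setIntegral_nonneg measurableSet_Ioi fun s hs => ?_
  exact mul_nonneg (Real.rpow_nonneg (le_of_lt hs) _) (h s hs N c)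

end Pool.Agent.W737.IW.Qp
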